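import Pool.Agent.BEL.StmtsP
import Pool.Agent.Helper91_BE01.EMB

/-!
# Squad BEL, row EMP: the embedding of the space of gradients in `L^2`
-/

namespace Pool.Agent.BEL.H64

open Set Filter Topology MeasureTheory
open scoped InnerProductSpace ENNReal
open Pool.Agent.BE01 Pool.Agent.BE01.H91

noncomputable section

/-- EMP -/
theorem emp (sob : SobStmt) : EmpStmt := by
  intro d Ω hd hΩ
  obtain ⟨C, hC, hS⟩ := sob d Ω 2 hd hΩ le_rfl (by linarith)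
  rw [ENNReal.ofReal_ofNat] at hS
  have := mu_fin hΩ
  have hb : ∀ ψ : TT Ω, ‖tl Ω 2 ψ‖ ≤ C * ‖ge Ω ψ‖ := by
    intro ψ
    have h1 : ‖ge Ω ψ‖ = ‖gr Ω ψ‖ := rfl
    rw [h1]
    show ‖(tst_memLp ψ.2 2).toLp ψ.1‖ ≤ C * ‖(tst_grad_memLp ψ.2 2).toLp (gradient ψ.1)‖
    rw [Lp.norm_toLp, Lp.norm_toLp]
    have h2 := hS ψ.1 ψ.2
    have h3 : C = (ENNReal.ofReal C).toReal := by rw [ENNReal.toReal_ofReal hC.le]
    rw [h3, ← ENNReal.toReal_mul]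
    refine ENNReal.toReal_mono ?_ h2
    exact ENNReal.mul_ne_top ENNReal.ofReal_ne_top (tst_grad_memLp ψ.2 2).eLpNorm_ne_top
  obtain ⟨ι, hι⟩ : ∃ ι, ι = (tl Ω 2).extendOfNorm (ge Ω) := ⟨_, rfl⟩
  have hi : ∀ ψ : TT Ω, ι (ge Ω ψ) = tl Ω 2 ψ := by
    intro ψ
    rw [hι]
    exact LinearMap.extendOfNorm_eq (ge_dense Ω) ⟨C, hb⟩ ψ
  refine ⟨ι, ?_, ?_⟩
  · intro ψ hψ G hG
    have h1 : G = ge Ω ⟨ψ, hψ⟩ := by
      apply Subtype.ext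
      exact Lp.ext (hG.trans (gr_ae Ω ⟨ψ, hψ⟩).symm)
    rw [h1, hi]
    exact tl_ae Ω 2 ⟨ψ, hψ⟩
  intro u G
  constructor
  · intro h
    have hcl : IsClosed ((fun P : Lp ℝ 2 (mu Ω) × VV Ω =>
        ((P.1, (P.2 : Lp (En d) 2 (mu Ω))) : Lp ℝ 2 (mu Ω) × Lp (En d) 2 (mu Ω))) ''
        {P | P.1 = ι P.2}) := by
      have hVc : IsClosed ((VV Ω : Submodule ℝ _) : Set (Lp (En d) 2 (mu Ω))) :=
        Submodule.isClosed_topologicalClosure _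
      have e1 : IsClosedEmbedding (fun P : Lp ℝ 2 (mu Ω) × VV Ω =>
          ((P.1, (P.2 : Lp (En d) 2 (mu Ω))) : Lp ℝ 2 (mu Ω) × Lp (En d) 2 (mu Ω))) :=
        IsClosedEmbedding.prodMap IsClosedEmbedding.id hVc.isClosedEmbedding_subtypeVal
      refine e1.isClosedMap _ ?_
      exact isClosed_eq continuous_fst (ι.continuous.comp continuous_snd)
    have h1 : H10 Ω ⊆ ((fun P : Lp ℝ 2 (mu Ω) × VV Ω =>
        ((P.1, (P.2 : Lp (En d) 2 (mu Ω))) : Lp ℝ 2 (mu Ω) × Lp (En d) 2 (mu Ω))) ''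
        {P | P.1 = ι P.2}) := by
      refine closure_minimal ?_ hcl
      rintro ⟨v, G'⟩ ⟨ψ, hψ, hv, hG'⟩
      have a1 : v = tl Ω 2 ⟨ψ, hψ⟩ := Lp.ext (hv.trans (tl_ae Ω 2 ⟨ψ, hψ⟩).symm)
      have a2 : G' = gr Ω ⟨ψ, hψ⟩ := Lp.ext (hG'.trans (gr_ae Ω ⟨ψ, hψ⟩).symm)
      refine ⟨(v, ge Ω ⟨ψ, hψ⟩), ?_, ?_⟩
      · show v = ι (ge Ω ⟨ψ, hψ⟩)
        rw [hi, a1]
      · show (v, (gr Ω ⟨ψ, hψ⟩ : Lp (En d) 2 (mu Ω))) = (v, G')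
        rw [a2]
    obtain ⟨⟨v, G'⟩, hP, hP2⟩ := h1 h
    have b1 : v = u := congrArg Prod.fst hP2
    have b2 : (G' : Lp (En d) 2 (mu Ω)) = G := congrArg Prod.snd hP2
    subst b2
    refine ⟨G'.2, ?_⟩
    rw [← b1]
    exact hP
  · rintro ⟨hG, hu⟩
    have hc : Continuous (fun G : VV Ω =>
        ((ι G, (G : Lp (En d) 2 (mu Ω))) : Lp ℝ 2 (mu Ω) × Lp (En d) 2 (mu Ω))) :=
      ι.continuous.prodMk continuous_subtype_val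
    have h2 : (⟨G, hG⟩ : VV Ω) ∈ closure (range (ge Ω)) := ge_dense Ω _
    have h3 := image_closure_subset_closure_image hc (mem_image_of_mem _ h2)
    rw [hu]
    refine closure_mono ?_ h3
    rintro _ ⟨_, ⟨ψ, rfl⟩, rfl⟩
    show (ι (ge Ω ψ), (gr Ω ψ : Lp (En d) 2 (mu Ω))) ∈ _
    rw [hi]
    exact pair_mem Ω ψ

end

end Pool.Agent.BEL.H64
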