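import Pool.Agent.BEL.StmtsC

/-!
# Squad BEL, row RD2: the second moment of a random sum in an inner product space
-/

namespace Pool.Agent.BEL.H64

open scoped InnerProductSpace

noncomputable section

/-- the average over the first sign -/
lemma av_succ {r : ℕ} (F : (Fin (r + 1) → Bool) → ℝ) :
    av F = av fun e : Fin r → Bool => (F (Fin.cons true e) + F (Fin.cons false e)) / 2 := by
  unfold av
  have h1 : ∑ e, F e = ∑ e : Fin r → Bool, (F (Fin.cons true e) + F (Fin.cons false e)) := by
    rw [← (Fin.consEquiv fun _ : Fin (r + 1) => Bool).sum_comp F, Fintype.sum_prod_type,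
      Fintype.sum_bool, ← Finset.sum_add_distrib]
    rfl
  rw [h1, ← Finset.sum_div, pow_succ]
  ring

/-- RD2 -/
theorem rd2 : Rd2Stmt := by
  intro K _ _ r
  induction r with
  | zero =>
    intro x
    unfold av
    simp
  | succ r ih =>
    intro x
    rw [av_succ, Fin.sum_univ_succ, ← ih fun i => x i.succ]
    have h1 : ∀ e : Fin r → Bool,
        (‖∑ i, sg ((Fin.cons true e : Fin (r + 1) → Bool) i) • x i‖ ^ 2 +
          ‖∑ i, sg ((Fin.cons false e : Fin (r + 1) → Bool) i) • x i‖ ^ 2) / 2 =
        ‖x 0‖ ^ 2 + ‖∑ i : Fin r, sg (e i) • x i.succ‖ ^ 2 := by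
      intro e
      rw [Fin.sum_univ_succ, Fin.sum_univ_succ]
      simp only [Fin.cons_zero, Fin.cons_succ]
      obtain ⟨y, hy⟩ : ∃ y, y = ∑ i : Fin r, sg (e i) • x i.succ := ⟨_, rfl⟩
      rw [← hy]
      have h2 : sg true = 1 := rfl
      have h3 : sg false = -1 := rfl
      rw [h2, h3, one_smul, neg_one_smul]
      have h4 := norm_add_sq_real (x 0) y
      have h5 := norm_add_sq_real (-x 0) y
      rw [norm_neg, inner_neg_left] at h5
      rw [h4, h5]
      ring
    have h6 : (fun e : Fin r → Bool =>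
        (‖∑ i, sg ((Fin.cons true e : Fin (r + 1) → Bool) i) • x i‖ ^ 2 +
          ‖∑ i, sg ((Fin.cons false e : Fin (r + 1) → Bool) i) • x i‖ ^ 2) / 2) =
        fun e => ‖x 0‖ ^ 2 + ‖∑ i : Fin r, sg (e i) • x i.succ‖ ^ 2 := funext h1
    rw [h6]
    unfold av
    rw [Finset.sum_add_distrib, mul_add, Finset.sum_const, Finset.card_univ, Fintype.card_fun,
      Fintype.card_bool, Fintype.card_fin, nsmul_eq_mul]
    push_cast
    rw [← mul_assoc, one_div, inv_mul_cancel₀ (by positivity), one_mul]

end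

end Pool.Agent.BEL.H64
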